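import Pool.Agent.Y813.LE.Stm

set_option autoImplicit false

/-!
# The explicit Leech lattice (job for helper813)
-/

namespace Pool.Agent.Y488.LE
open Pool.Agent.Y813.LE
open Pool.Agent.Y813.RL (bf)
open Finset

theorem gram : LB * LB.transpose = 8 • LN := by decide +kernel

theorem symmN : LN.transpose = LN := by decide +kernel

theorem evenN : ∀ i, Even (LN i i) := by decide +kernel

theorem id8 : P8.transpose * LN * P8 = e82 := by decide +kernel

theorem id6 : P6.transpose * LN * P6 = d33 := by decide +kernel

theorem id4 : P4.transpose * LN * P4 = d5 := by decide +kernel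

theorem upper' : ∀ i : Fin 24, ∀ j : Fin 24, (decide (j < i) && !decide (LB i j = 0)) = false := by
  decide +kernel

theorem upper (i j : Fin 24) (h : j < i) : LB i j = 0 := by
  simpa [h] using upper' i j

theorem diagprod : ∏ i : Fin 24, LB i i = 2 ^ 36 := by decide +kernel

theorem detLB : LB.det = 2 ^ 36 := by
  rw [Matrix.det_of_isUpperTriangular, diagprod]
  intro i j h
  exact upper i j h

theorem detLN : LN.det = 1 := by
  have h := congrArg Matrix.det gram
  rw [Matrix.det_mul, Matrix.det_transpose, detLB, ← Nat.cast_smul_eq_nsmul ℤ,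
    Matrix.det_smul] at h
  simp only [Fintype.card_fin] at h
  norm_num at h
  omega

theorem gram_apply (i k : Fin 24) : ∑ j, LB i j * LB k j = 8 * LN i k := by
  have h := congrFun (congrFun gram i) k
  simpa [Matrix.mul_apply] using h

/-- the norm in standard coordinates -/
theorem norm_eq {R : Type*} [CommRing R] (x : Fin 24 → R) :
    ∑ j, (∑ i, x i * (LB i j : R)) ^ 2 = 8 * bf LN x x := by
  have h1 : ∀ j, (∑ i, x i * (LB i j : R)) ^ 2 =
      ∑ i, ∑ k, x i * x k * ((LB i j * LB k j : ℤ) : R) := by
    intro j
    rw [sq, sum_mul_sum]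
    refine sum_congr rfl fun i _ => sum_congr rfl fun k _ => ?_
    push_cast
    ring
  rw [sum_congr rfl fun j _ => h1 j, sum_comm]
  unfold bf
  rw [mul_sum]
  refine sum_congr rfl fun i _ => ?_
  rw [sum_comm, mul_sum]
  refine sum_congr rfl fun k _ => ?_
  rw [← mul_sum, ← Int.cast_sum, gram_apply]
  push_cast
  ring

theorem posN (x : Fin 24 → ℝ) (hx : x ≠ 0) : 0 < bf LN x x := by
  have h := norm_eq x
  have h0 : 0 ≤ ∑ j, (∑ i, x i * (LB i j : ℝ)) ^ 2 := sum_nonneg fun j _ => sq_nonneg _
  by_contra hn
  have h1 : ∑ j, (∑ i, x i * (LB i j : ℝ)) ^ 2 = 0 := by linarith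
  rw [sum_eq_zero_iff_of_nonneg (fun j _ => sq_nonneg _)] at h1
  apply hx
  have hdet : (LB.map (Int.cast : ℤ → ℝ)).det ≠ 0 := by
    have := (Int.castRingHom ℝ).map_det LB
    rw [detLB] at this
    have h3 : (Int.castRingHom ℝ).mapMatrix LB = LB.map (Int.cast : ℤ → ℝ) := rfl
    rw [h3] at this
    rw [← this]
    norm_num
  refine Matrix.eq_zero_of_vecMul_eq_zero hdet ?_
  funext j
  have := h1 j (mem_univ j)
  rw [sq_eq_zero_iff] at this
  simpa [Matrix.vecMul, dotProduct] using this

/-- the code word with given information bits -/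
def word : (n : ℕ) → (Fin n → Bool) → (Fin n → ℕ) → ℕ
  | 0, _, _ => 0
  | n + 1, a, R => (if a 0 then R 0 else 0) ^^^ word n (fun i => a i.succ) (fun i => R i.succ)

theorem word_spec (j : ℕ) : ∀ (n : ℕ) (y H : Fin n → ℤ) (R : Fin n → ℕ),
    (∀ i, Int.bodd (H i) = Nat.testBit (R i) j) →
    Int.bodd (∑ i, y i * H i) = Nat.testBit (word n (fun i => Int.bodd (y i)) R) j
  | 0, y, H, R, _ => by simp [word]
  | n + 1, y, H, R, h => by
    rw [Fin.sum_univ_succ, Int.bodd_add, Int.bodd_mul, word, Nat.testBit_xor,
      ← word_spec j n (fun i => y i.succ) (fun i => H i.succ) (fun i => R i.succ)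
        (fun i => h i.succ), h 0]
    congr 1
    by_cases hy : Int.bodd (y 0) = true
    · simp [hy]
    · simp [hy]

/-- weight of a word -/
def wt (w : ℕ) : ℕ := ∑ j : Fin 24, (Nat.testBit w j).toNat

/-- all words of the code have weight at least 5 -/
def chk : (n : ℕ) → (Fin n → ℕ) → ℕ → Bool
  | 0, _, w => decide (w = 0) || decide (5 ≤ wt w)
  | n + 1, R, w => if R 0 = 0 then chk n (fun i => R i.succ) w else
      chk n (fun i => R i.succ) w && chk n (fun i => R i.succ) (w ^^^ R 0)

theorem chk_spec : ∀ (n : ℕ) (R : Fin n → ℕ) (w : ℕ), chk n R w = true →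
    ∀ a : Fin n → Bool, w ^^^ word n a R = 0 ∨ 5 ≤ wt (w ^^^ word n a R)
  | 0, R, w, h, a => by
    simpa [chk, word] using h
  | n + 1, R, w, h, a => by
    rw [chk] at h
    rw [word]
    by_cases h0 : R 0 = 0
    · rw [if_pos h0] at h
      have := chk_spec n _ w h (fun i => a i.succ)
      simpa [h0] using this
    · rw [if_neg h0, Bool.and_eq_true] at h
      by_cases ha : a 0 = true
      · have := chk_spec n _ _ h.2 (fun i => a i.succ)
        rw [if_pos ha, ← Nat.xor_assoc]
        exact this
      · have := chk_spec n _ _ h.1 (fun i => a i.succ)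
        rw [if_neg ha, Nat.zero_xor]
        exact this

/-- the rows of the generator matrix of the Golay code, as bit masks -/
def msk : Fin 24 → ℕ :=
  ![16777215, 14442498, 1503236, 3006472, 6012944, 10072096, 11755584, 15122560, 6533376,
    15290880, 8164352, 14096384, 0, 0, 0, 0, 0, 0, 0, 0, 0, 0, 0, 0]

theorem chk_msk : chk 24 msk 0 = true := by decide +kernel

/-- half of the basis (the first row is not halved) -/
def HB (i j : Fin 24) : ℤ := if i = 0 then LB i j else LB i j / 2

theorem HB_spec' : ∀ i : Fin 24, ∀ j : Fin 24,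
    (!decide (i = 0) && !decide (LB i j = 2 * HB i j)) = false := by decide +kernel

theorem HB_spec (i j : Fin 24) (h : i ≠ 0) : LB i j = 2 * HB i j := by
  simpa [h] using HB_spec' i j

theorem HB_zero : ∀ j : Fin 24, HB 0 j = LB 0 j := by decide +kernel

theorem HB_bodd : ∀ i j : Fin 24, Int.bodd (HB i j) = Nat.testBit (msk i) j := by decide +kernel

theorem row_sum : ∀ i : Fin 24, ∑ j, LB i j = if i = 0 then 8 * ((∑ j, LB i j) / 8) + 4 else
    8 * ((∑ j, LB i j) / 8) := by decide +kernel

theorem row0_odd : ∀ j : Fin 24, LB 0 j % 2 = 1 := by decide +kernel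

theorem norootN (v : Fin 24 → ℤ) : bf LN v v ≠ 2 := by
  intro h
  have h16 := norm_eq v
  rw [h] at h16
  simp only [Int.cast_id] at h16
  rcases Int.even_or_odd' (v 0) with ⟨u, hu | hu⟩
  · -- even case
    set y : Fin 24 → ℤ := fun i => if i = 0 then u else v i with hy
    set b : Fin 24 → ℤ := fun j => ∑ i, y i * HB i j with hb
    have hx : ∀ j, ∑ i, v i * LB i j = 2 * b j := by
      intro j
      rw [hb]
      simp only
      rw [mul_sum]
      refine sum_congr rfl fun i _ => ?_
      by_cases hi : i = 0
      · subst hi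
        rw [HB_zero, hu, hy]
        simp only [if_true]
        ring
      · rw [HB_spec i j hi, hy]
        simp only [if_neg hi]
        ring
    have h4 : ∑ j, b j ^ 2 = 4 := by
      have : ∑ j, (∑ i, v i * LB i j) ^ 2 = 4 * ∑ j, b j ^ 2 := by
        rw [mul_sum]
        refine sum_congr rfl fun j _ => ?_
        rw [hx]
        ring
      rw [this] at h16
      linarith
    have hbod : ∀ j : Fin 24, Int.bodd (b j) =
        Nat.testBit (word 24 (fun i => Int.bodd (y i)) msk) j := fun j =>
      word_spec j 24 y (fun i => HB i j) msk (fun i => HB_bodd i j)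
    have hw := chk_spec 24 msk 0 chk_msk (fun i => Int.bodd (y i))
    rw [Nat.zero_xor] at hw
    rcases hw with hw | hw
    · -- all even
      have hev : ∀ j, ∃ c, b j = 2 * c := by
        intro j
        have := hbod j
        rw [hw, Nat.zero_testBit] at this
        have h2 := Int.bodd_add_div2 (b j)
        rw [this] at h2
        exact ⟨Int.div2 (b j), by simpa using h2.symm⟩
      choose c hc using hev
      have h1 : ∑ j, c j ^ 2 = 1 := by
        have : ∑ j, b j ^ 2 = 4 * ∑ j, c j ^ 2 := by
          rw [mul_sum]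
          refine sum_congr rfl fun j _ => ?_
          rw [hc]
          ring
        linarith
      have hs : (∑ j, ∑ i, v i * LB i j) = 4 * ∑ j, c j := by
        rw [mul_sum]
        refine sum_congr rfl fun j _ => ?_
        rw [hx, hc]
        ring
      have hs8 : (8 : ℤ) ∣ ∑ j, ∑ i, v i * LB i j := by
        rw [sum_comm]
        refine dvd_sum fun i _ => ?_
        rw [← mul_sum, row_sum i]
        by_cases hi : i = 0
        · rw [if_pos hi, hi, hu]
          exact ⟨u * (2 * ((∑ j, LB 0 j) / 8) + 1), by ring⟩
        · rw [if_neg hi]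
          exact ⟨v i * ((∑ j, LB i j) / 8), by ring⟩
      rw [hs] at hs8
      have hc2 : (2 : ℤ) ∣ ∑ j, c j := by omega
      have hdiff : (2 : ℤ) ∣ ∑ j, (c j ^ 2 - c j) := by
        refine dvd_sum fun j _ => ?_
        have := Int.even_mul_pred_self (c j)
        rw [show c j ^ 2 - c j = c j * (c j - 1) by ring]
        exact this.two_dvd
      rw [sum_sub_distrib, h1] at hdiff
      omega
    · -- weight at least five
      have hle : (wt (word 24 (fun i => Int.bodd (y i)) msk) : ℤ) ≤ ∑ j, b j ^ 2 := by
        unfold wt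
        push_cast
        refine sum_le_sum fun j _ => ?_
        rw [← hbod j]
        by_cases hz : b j = 0
        · simp [hz]
        · have h1 : 0 < b j ^ 2 := by positivity
          have h2 : ((Int.bodd (b j)).toNat : ℤ) ≤ 1 := by
            exact_mod_cast Bool.toNat_le _
          linarith
      rw [h4] at hle
      have : (5 : ℤ) ≤ (wt (word 24 (fun i => Int.bodd (y i)) msk) : ℤ) := by exact_mod_cast hw
      linarith
  · -- odd case
    have h24 : (24 : ℤ) ≤ ∑ j : Fin 24, (∑ i, v i * LB i j) ^ 2 := by
      have : ∀ j ∈ (univ : Finset (Fin 24)), (1 : ℤ) ≤ (∑ i, v i * LB i j) ^ 2 := by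
        intro j _
        have hne : ∑ i, v i * LB i j ≠ 0 := by
          intro h0
          have hd : (2 : ℤ) ∣ ∑ i : Fin 24, v i * LB i j - LB 0 j := by
            rw [Fin.sum_univ_succ, hu]
            have h2 : (2 : ℤ) ∣ ∑ i : Fin 23, v i.succ * LB i.succ j := by
              refine dvd_sum fun i _ => ?_
              rw [HB_spec i.succ j (Fin.succ_ne_zero i)]
              exact ⟨v i.succ * HB i.succ j, by ring⟩
            obtain ⟨t, ht⟩ := h2
            rw [ht]
            exact ⟨u * LB 0 j + t, by ring⟩
          rw [h0] at hd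
          have := row0_odd j
          omega
        have : 0 < (∑ i, v i * LB i j) ^ 2 := by positivity
        linarith
      have h := sum_le_sum this
      simpa using h
    rw [h16] at h24
    norm_num at h24

/-- the job statement -/
theorem job : JobLeech :=
  ⟨⟨symmN, evenN, posN, detLN, norootN⟩, id8, id6, id4⟩

end Pool.Agent.Y488.LE
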